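import Pool.Agent.Helper20.PeriodicEffortMain

set_option autoImplicit false

namespace Pool.Agent.Results.MP_030830_an.EffortMonotoneInBudget

open Pool.PeriodicEffort

/-- Affirmative answer to Q1: for admissible data, if `0 < η₁ < η₂` then the effort spent on
`[t, s)` by the minimiser of budget `η₁` is at most the one spent by the minimiser of budget `η₂`.
The theorem covers both one-sided normalisations of the distribution functions. -/
theorem result (side : ℝ → Set ℝ) (hside : side = Set.Ici ∨ side = Set.Iic)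
    (T δ : ℝ) (c w : ℝ → ℝ) (h : Admissible side T δ c w)
    (η₁ η₂ : ℝ) (hη₁ : 0 < η₁) (hη : η₁ < η₂) (α₁ α₂ : ℝ → ℝ)
    (h₁ : IsMinimiser side T δ c w η₁ α₁) (h₂ : IsMinimiser side T δ c w η₂ α₂)
    (t s : ℝ) (hts : t < s) :
    α₁ s - α₁ t ≤ α₂ s - α₂ t :=
  monotone_in_budget h hside hη₁ hη h₁ h₂ hts

end Pool.Agent.Results.MP_030830_an.EffortMonotoneInBudget
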